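import Mathlib

set_option autoImplicit false

/-!
Locally nonmeager sets in a second countable space, without any definability assumption.
-/

namespace Q206.Cat

open Set Topology Filter TopologicalSpace

variable {X : Type*} [TopologicalSpace X] [SecondCountableTopology X]

/-- the largest open set in which `S` is meagre -/
def K (S : Set X) : Set X := ⋃₀ {V | V ∈ countableBasis X ∧ IsMeagre (S ∩ V)}

theorem isOpen_K (S : Set X) : IsOpen (K S) :=
  isOpen_sUnion fun _ hV => isOpen_of_mem_countableBasis hV.1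

theorem isMeagre_K (S : Set X) : IsMeagre (S ∩ K S) := by
  have h : S ∩ K S = ⋃₀ ((fun V => S ∩ V) '' {V | V ∈ countableBasis X ∧ IsMeagre (S ∩ V)}) := by
    rw [K, sUnion_image]
    ext x
    simp only [mem_inter_iff, mem_sUnion, mem_ofPred_eq, mem_iUnion, exists_prop]
    constructor
    · rintro ⟨hx, V, hV, hxV⟩
      exact ⟨V, hV, hx, hxV⟩
    · rintro ⟨V, hV, hx, hxV⟩
      exact ⟨hx, V, hV, hxV⟩
  rw [h, sUnion_eq_biUnion]
  have hc : ((fun V => S ∩ V) '' {V | V ∈ countableBasis X ∧ IsMeagre (S ∩ V)}).Countable :=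
    ((countable_countableBasis X).mono fun V hV => hV.1).image _
  have := hc.to_subtype
  rw [biUnion_eq_iUnion]
  refine isMeagre_iUnion fun V => ?_
  obtain ⟨V, hV⟩ := V
  obtain ⟨V', hV', rfl⟩ := hV
  exact hV'.2

theorem subset_K {S O : Set X} (hO : IsOpen O) (h : IsMeagre (S ∩ O)) : O ⊆ K S := by
  intro x hx
  obtain ⟨V, hV, hxV, hVO⟩ := (isBasis_countableBasis X).exists_subset_of_mem_open hx hO
  exact ⟨V, ⟨hV, h.mono (inter_subset_inter_right _ hVO)⟩, hxV⟩

theorem K_anti {S T : Set X} (h : S ⊆ T) : K T ⊆ K S :=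
  subset_K (isOpen_K T) ((isMeagre_K T).mono (inter_subset_inter_left _ h))

/-- the open set of points near which `S` is everywhere nonmeagre -/
def W (S : Set X) : Set X := (closure (K S))ᶜ

theorem isOpen_W (S : Set X) : IsOpen (W S) := isClosed_closure.isOpen_compl

theorem W_mono {S T : Set X} (h : S ⊆ T) : W S ⊆ W T :=
  compl_subset_compl.2 (closure_mono (K_anti h))

theorem W_disjoint {S O : Set X} (hO : IsOpen O) (h : S ∩ O = ∅) : W S ∩ O = ∅ := by
  have h1 : O ⊆ K S := subset_K hO (by rw [h]; exact IsMeagre.empty)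
  refine disjoint_iff_inter_eq_empty.1 (disjoint_left.2 fun x hx hxO => hx (subset_closure (h1 hxO)))

theorem W_cover {κ : Type*} [Countable κ] {S : Set X} {T : κ → Set X} (h : S ⊆ ⋃ k, T k) :
    ∀ᶠ x in residual X, x ∈ W S → ∃ k, x ∈ W (T k) := by
  set F : Set X := (⋂ k, closure (K (T k))) ∩ (closure (K S))ᶜ with hF
  have hint : interior F = ∅ := by
    rw [Set.eq_empty_iff_forall_notMem]
    intro x hx
    have h1 : interior F ⊆ K S := by
      refine subset_K isOpen_interior ?_
      have h2 : S ∩ interior F ⊆ ⋃ k, ((T k ∩ K (T k)) ∪ frontier (K (T k))) := by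
        rintro y ⟨hyS, hyF⟩
        obtain ⟨k, hk⟩ := mem_iUnion.1 (h hyS)
        refine mem_iUnion.2 ⟨k, ?_⟩
        have h3 : y ∈ closure (K (T k)) := mem_iInter.1 (interior_subset hyF).1 k
        by_cases h4 : y ∈ K (T k)
        · exact Or.inl ⟨hk, h4⟩
        · refine Or.inr ?_
          rw [(isOpen_K _).frontier_eq]
          exact ⟨h3, h4⟩
      refine (isMeagre_iUnion fun k => ?_).mono h2
      refine (isMeagre_K _).union ?_
      refine IsNowhereDense.isMeagre ?_
      rw [isClosed_frontier.isNowhereDense_iff, ← frontier_compl]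
      exact interior_frontier (isOpen_K (T k)).isClosed_compl
    exact (interior_subset hx).2 (subset_closure (h1 hx))
  have hnd : IsNowhereDense F := by
    rw [IsNowhereDense, Set.eq_empty_iff_forall_notMem]
    intro x hx
    have h1 : interior (closure F) ⊆ ⋂ k, closure (K (T k)) := by
      refine interior_subset.trans (closure_minimal inter_subset_left ?_)
      exact isClosed_iInter fun k => isClosed_closure
    obtain ⟨y, hy, hyF⟩ := mem_closure_iff.1 (interior_subset hx) _ isOpen_interior hx
    have h2 : interior (closure F) ∩ (closure (K S))ᶜ ⊆ interior F :=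
      interior_maximal (inter_subset_inter_left _ h1) (isOpen_interior.inter isClosed_closure.isOpen_compl)
    have h3 := h2 ⟨hy, hyF.2⟩
    rw [hint] at h3
    exact h3
  have h5 : ∀ᶠ x in residual X, x ∉ F := hnd.isMeagre
  filter_upwards [h5] with x hx hxS
  by_contra hcon
  push Not at hcon
  refine hx ⟨mem_iInter.2 fun k => ?_, hxS⟩
  have := hcon k
  rw [W, mem_compl_iff, not_not] at this
  exact this

theorem subset_W [BaireSpace X] {S O : Set X} (hO : IsOpen O) (h : O ⊆ S) : O ⊆ W S := by
  intro x hx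
  rw [W, mem_compl_iff, mem_closure_iff]
  push Not
  refine ⟨O, hO, hx, ?_⟩
  by_contra hne
  rw [← Ne, ← nonempty_iff_ne_empty] at hne
  have h1 : IsMeagre (O ∩ K S) := (isMeagre_K S).mono (inter_subset_inter_left _ h)
  have h2 : Dense ((O ∩ K S)ᶜ) := dense_of_mem_residual h1
  obtain ⟨y, hy, hy2⟩ := h2.inter_open_nonempty _ (hO.inter (isOpen_K S)) hne
  exact hy2 hy

/-- Invariance under an involution. -/
theorem W_homeo {S : Set X} (f : X ≃ₜ X) (h : f ⁻¹' S = S) : f ⁻¹' (W S) = W S := by
  have key : ∀ g : X ≃ₜ X, g ⁻¹' S = S → g ⁻¹' (K S) ⊆ K S := by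
    intro g hg
    refine subset_K ((isOpen_K S).preimage g.continuous) ?_
    have := (isMeagre_K S).preimage_of_isOpenMap g.continuous g.isOpenMap
    rwa [preimage_inter, hg] at this
  have h2 : f.symm ⁻¹' S = S := by
    conv_lhs => rw [← h]
    rw [← preimage_comp]
    simp
  have h3 : f ⁻¹' (K S) = K S := by
    refine Subset.antisymm (key f h) ?_
    have := preimage_mono (f := f) (key f.symm h2)
    rw [← preimage_comp] at this
    simpa using this
  rw [W, preimage_compl, f.preimage_closure, h3]

end Q206.Cat
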