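import Mathlib

set_option autoImplicit false

/-!
Turing operators, enumeration operators, introreducible and introenumerable sets.
-/

namespace Q206.Intro

open Classical in
/-- The characteristic sequence of a set of natural numbers. -/
noncomputable def chr (S : Set ℕ) : ℕ → Bool := fun n => decide (n ∈ S)

/-- `A ≤_T B`: Mathlib's Turing reducibility for the characteristic functions. -/
def TRed (A B : Set ℕ) : Prop :=
  TuringReducible (fun n => Part.some (chr A n).toNat) (fun n => Part.some (chr B n).toNat)

/-- The string `(C(0), ..., C(s-1))`. -/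
noncomputable def ini (C : Set ℕ) (s : ℕ) : List Bool := (List.range s).map (chr C)

/-- A Turing operator is given by a computably enumerable set `W` of axioms `(σ, n, b)`: if `σ` is
an initial segment of the oracle, then `b` is a value for the input `n`. `Computes W C A` says that
the operator `W` with the oracle `C` computes the characteristic function of `A`: for each input
`n` it gives the value `A(n)`, and no other value. -/
def Computes (W : Set (List Bool × ℕ × Bool)) (C A : Set ℕ) : Prop :=
  ∀ (n : ℕ) (b : Bool), (∃ s : ℕ, (ini C s, n, b) ∈ W) ↔ chr A n = b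

/-- `A ≤^{ui}_T B`: one Turing operator computes `A` from every infinite subset of `B`. -/
def UIT (A B : Set ℕ) : Prop :=
  ∃ W : Set (List Bool × ℕ × Bool), REPred (fun x => x ∈ W) ∧
    ∀ C : Set ℕ, C ⊆ B → C.Infinite → Computes W C A

/-- `A` is infinite and every infinite subset of `A` computes `A`. -/
def Introreducible (A : Set ℕ) : Prop :=
  A.Infinite ∧ ∀ C : Set ℕ, C ⊆ A → C.Infinite → TRed A C

/-- `A` is infinite and one Turing operator computes `A` from every infinite subset of `A`. -/
def UniformlyIntroreducible (A : Set ℕ) : Prop := A.Infinite ∧ UIT A A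

/-- `D u` is the finite set with canonical index `u`, i.e. `u` is the sum of `2 ^ n`, `n ∈ D u`. -/
def D (u : ℕ) : Set ℕ := {n | u.testBit n = true}

/-- `Θ(X)` for an enumeration operator `Θ`. -/
def app (Θ : Set (ℕ × ℕ)) (X : Set ℕ) : Set ℕ := {n | ∃ u : ℕ, D u ⊆ X ∧ (u, n) ∈ Θ}

/-- `A ≤_e B`: `A = Θ(B)` for an enumeration operator (a c.e. set) `Θ`. -/
def ERed (A B : Set ℕ) : Prop := ∃ Θ : Set (ℕ × ℕ), REPred (fun x => x ∈ Θ) ∧ app Θ B = A

/-- `A ≤^{ui}_e B`: one enumeration operator enumerates `A` from every infinite subset of `B`. -/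
def UIE (A B : Set ℕ) : Prop :=
  ∃ Θ : Set (ℕ × ℕ), REPred (fun x => x ∈ Θ) ∧
    ∀ C : Set ℕ, C ⊆ B → C.Infinite → app Θ C = A

/-- `A` is infinite and every infinite subset of `A` enumerates `A`. -/
def Introenumerable (A : Set ℕ) : Prop :=
  A.Infinite ∧ ∀ C : Set ℕ, C ⊆ A → C.Infinite → ERed A C

end Q206.Intro
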