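import Pool.Agent.Q206.Intro.Cat

set_option autoImplicit false

/-!
Generic sequences defeat every finite family of partial functionals which have to guess one
coordinate from an infinite subset of a column of a decomposition.
-/

namespace Q206.Gen

open Set Filter Topology Q206.Cat

open Classical in
/-- The characteristic string of length `s` of the set `N`. -/
noncomputable def pre (N : Set ℕ) (s : ℕ) : List Bool := (List.range s).map fun p => decide (p ∈ N)

@[simp] theorem length_pre (N : Set ℕ) (s : ℕ) : (pre N s).length = s := by simp [pre]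

theorem pre_congr {N N' : Set ℕ} {s : ℕ} (h : ∀ p < s, p ∈ N ↔ p ∈ N') : pre N s = pre N' s := by
  unfold pre
  refine List.map_congr_left fun p hp => ?_
  simp [h p (List.mem_range.1 hp)]

theorem take_pre (N : Set ℕ) {s t : ℕ} (h : s ≤ t) : (pre N t).take s = pre N s := by
  rw [pre, pre, ← List.map_take, List.take_range, min_eq_left h]

theorem pre_prefix (N : Set ℕ) {s t : ℕ} (h : s ≤ t) : pre N s <+: pre N t := by
  rw [← take_pre N h]
  exact List.take_prefix _ _

/-- monotone string functions -/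
def Mon (g : List Bool → Option ℕ) : Prop :=
  ∀ σ τ v, σ <+: τ → g σ = some v → g τ = some v

/-- `F` is attracting for `v` along the hyperfilter. -/
inductive AttU (g : List Bool → Option ℕ) (v : ℕ) : Finset ℕ → Prop
  | base (F : Finset ℕ) (s : ℕ) : g (pre F s) = some v → AttU g v F
  | step (F : Finset ℕ) (S : Set ℕ) : S ∈ hyperfilter ℕ → (∀ m ∈ S, AttU g v (insert m F)) →
      AttU g v F

/-- `F` is attracting for `v` in the game. -/
inductive Att {ι : Type} [DecidableEq ι] (g : ι → List Bool → Option ℕ) (v : ℕ) :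
    (ι → Finset ℕ) → Prop
  | base (F : ι → Finset ℕ) (i : ι) (s : ℕ) : g i (pre (F i) s) = some v → Att g v F
  | step (F : ι → Finset ℕ) (m0 : ℕ) (f : ℕ → ι) :
      (∀ m ≥ m0, Att g v (Function.update F (f m) (insert m (F (f m))))) → Att g v F

theorem exists_ge_of_mem {S : Set ℕ} (hS : S ∈ hyperfilter ℕ) (s : ℕ) : ∃ m ∈ S, s ≤ m := by
  have h : {m : ℕ | s ≤ m} ∈ hyperfilter ℕ := by
    refine mem_hyperfilter_of_finite_compl ?_
    refine (Set.finite_lt_nat s).subset fun m hm => ?_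
    simpa using hm
  obtain ⟨m, hm⟩ := (Ultrafilter.neBot (hyperfilter ℕ)).nonempty_of_mem (inter_mem hS h)
  exact ⟨m, hm.1, hm.2⟩

theorem comm_unique {g : List Bool → Option ℕ} (hg : Mon g) {N : Set ℕ} {s t v v' : ℕ}
    (h : g (pre N s) = some v) (h' : g (pre N t) = some v') : v = v' := by
  have h1 := hg _ _ _ (pre_prefix N (le_max_left s t)) h
  have h2 := hg _ _ _ (pre_prefix N (le_max_right s t)) h'
  rw [h1] at h2
  exact Option.some.inj h2

theorem attU_of_commit {g : List Bool → Option ℕ} (hg : Mon g) {F : Finset ℕ} {s v v' : ℕ}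
    (h : g (pre F s) = some v) {G : Finset ℕ} (hG : AttU g v' G) (hFG : ∀ p < s, p ∈ G ↔ p ∈ F) :
    v = v' := by
  induction hG with
  | base G t h1 =>
    have h2 : pre (G : Set ℕ) s = pre (F : Set ℕ) s := pre_congr (by simpa using hFG)
    rw [← h2] at h
    exact comm_unique hg h h1
  | step G S hS _ ih =>
    obtain ⟨m, hm, hsm⟩ := exists_ge_of_mem hS s
    refine ih m hm fun p hp => ?_
    rw [Finset.mem_insert, ← hFG p hp]
    constructor
    · rintro (rfl | h)
      · omega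
      · exact h
    · exact Or.inr

theorem attU_unique {g : List Bool → Option ℕ} (hg : Mon g) {v v' : ℕ} {F : Finset ℕ}
    (h : AttU g v F) (h' : AttU g v' F) : v = v' := by
  induction h with
  | base F s h1 => exact attU_of_commit hg h1 h' fun _ _ => Iff.rfl
  | step F S hS _ ih =>
    cases h' with
    | base _ s h1 =>
      exact (attU_of_commit hg h1 (AttU.step F S hS (by assumption)) fun _ _ => Iff.rfl).symm
    | step _ S' hS' h2 =>
      obtain ⟨m, hm⟩ := (Ultrafilter.neBot (hyperfilter ℕ)).nonempty_of_mem (inter_mem hS hS')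
      exact ih m hm.1 (h2 m hm.2)

theorem exists_attU {ι : Type} [DecidableEq ι] [Finite ι] {g : ι → List Bool → Option ℕ} {v : ℕ}
    {F : ι → Finset ℕ} (h : Att g v F) : ∃ i, AttU (g i) v (F i) := by
  induction h with
  | base F i s h1 => exact ⟨i, AttU.base _ s h1⟩
  | step F m0 f _ ih =>
    choose k hk using ih
    by_cases hex : ∃ (m : ℕ) (hm : m ≥ m0), k m hm ≠ f m
    · obtain ⟨m, hm, hne⟩ := hex
      have := hk m hm
      rw [Function.update_of_ne hne] at this
      exact ⟨_, this⟩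
    · push Not at hex
      have h1 : ∀ m ≥ m0, AttU (g (f m)) v (insert m (F (f m))) := by
        intro m hm
        have := hk m hm
        rw [hex m hm, Function.update_self] at this
        exact this
      have h2 : (⋃ i ∈ (Set.univ : Set ι), {m | f m = i}) ∈ hyperfilter ℕ := by
        have h3 : (⋃ i ∈ (Set.univ : Set ι), {m | f m = i}) = Set.univ := by
          ext m
          simp
        rw [h3]
        exact Filter.univ_mem
      obtain ⟨i, -, hi⟩ := (Ultrafilter.finite_biUnion_mem_iff Set.finite_univ).1 h2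
      refine ⟨i, AttU.step (F i) ({m | f m = i} ∩ {m | m0 ≤ m}) (inter_mem hi ?_) ?_⟩
      · refine mem_hyperfilter_of_finite_compl ?_
        refine (Set.finite_lt_nat m0).subset fun m hm => ?_
        simpa using hm
      · rintro m ⟨rfl, hm⟩
        exact h1 m hm

/-- At most `card ι` values are attracted. -/
theorem exists_not_att {ι : Type} [DecidableEq ι] [Fintype ι] {g : ι → List Bool → Option ℕ}
    (hg : ∀ i, Mon (g i)) (F : ι → Finset ℕ) : ∃ v ≤ Fintype.card ι, ¬ Att g v F := by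
  by_contra hcon
  push Not at hcon
  have h1 : ∀ v : Fin (Fintype.card ι + 1), ∃ i, AttU (g i) v (F i) := fun v =>
    exists_attU (hcon v (Nat.lt_succ_iff.1 v.2))
  choose k hk using h1
  obtain ⟨v, v', hne, he⟩ := Fintype.exists_ne_map_eq_of_card_lt k (by simp)
  have h2 := hk v
  rw [he] at h2
  exact hne (Fin.ext (attU_unique (hg _) h2 (hk v')))

/-- `Z` with the coordinate `j` erased. -/
def er (j : ℕ) (Z : ℕ → ℕ) : ℕ → ℕ := Function.update Z j 0

/-- The sequences for which the game is won by the player who wants to avoid `v`. -/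
def NN {E : Type} (G : E → ℕ → (ℕ → ℕ) → List Bool → Option ℕ) {n : ℕ} (e : Fin n → E) (j v : ℕ)
    (F : Fin n → Finset ℕ) : Set (ℕ → ℕ) :=
  {Y | ¬ Att (fun i => G (e i) j (er j Y)) v F}

section

variable {E : Type} [Countable E] (G : E → ℕ → (ℕ → ℕ) → List Bool → Option ℕ)

theorem gen_one : ∀ᶠ Y in residual (ℕ → ℕ), ∀ (n : ℕ) (e : Fin n → E) (j v : ℕ)
    (F : Fin n → Finset ℕ) (m0 : ℕ), Y ∈ W (NN G e j v F) → ∃ m : ℕ, m0 ≤ m ∧
      Y ∈ W (⋂ i, NN G e j v (Function.update F i (insert m (F i)))) := by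
  rw [eventually_countable_forall]; intro n
  rw [eventually_countable_forall]; intro e
  rw [eventually_countable_forall]; intro j
  rw [eventually_countable_forall]; intro v
  rw [eventually_countable_forall]; intro F
  rw [eventually_countable_forall]; intro m0
  have h := W_cover (S := NN G e j v F)
    (T := fun m : {m : ℕ // m0 ≤ m} => ⋂ i, NN G e j v (Function.update F i (insert m.1 (F i)))) ?_
  · filter_upwards [h] with Y hY hYS
    obtain ⟨⟨m, hm⟩, hm2⟩ := hY hYS
    exact ⟨m, hm, hm2⟩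
  · intro Y hY
    by_contra hcon
    simp only [mem_iUnion, mem_iInter, Subtype.exists, not_exists, not_forall] at hcon
    have h1 : ∀ m : ℕ, ∃ i, m0 ≤ m → Att (fun i => G (e i) j (er j Y)) v
        (Function.update F i (insert m (F i))) := by
      intro m
      by_cases hm : m0 ≤ m
      · obtain ⟨i, hi⟩ := hcon m hm
        refine ⟨i, fun _ => ?_⟩
        simpa [NN] using hi
      · obtain ⟨i, -⟩ := hcon m0 le_rfl
        exact ⟨i, fun h => absurd h hm⟩
    choose f hf using h1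
    exact hY (Att.step F m0 f fun m hm => hf m hm)

variable (hmono : ∀ e j Y, Mon (G e j Y))
  (hcont : ∀ e j Y τ, ∃ n, ∀ Y' : ℕ → ℕ, (∀ k < n, Y' k = Y k) → G e j Y' τ = G e j Y τ)

/-- cylinders -/
def cyl (Y : ℕ → ℕ) (n : ℕ) : Set (ℕ → ℕ) := {Y' | ∀ k < n, Y' k = Y k}

theorem isOpen_cyl (Y : ℕ → ℕ) (n : ℕ) : IsOpen (cyl Y n) := by
  have : cyl Y n = ⋂ k ∈ (Set.Iio n), {Y' : ℕ → ℕ | Y' k = Y k} := by
    ext Y'
    simp [cyl]
  rw [this]
  refine (Set.finite_Iio n).isOpen_biInter fun k _ => ?_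
  have h : {Y' : ℕ → ℕ | Y' k = Y k} = (fun Y' : ℕ → ℕ => Y' k) ⁻¹' {Y k} := rfl
  rw [h]
  exact (isOpen_discrete _).preimage (continuous_apply k)

theorem mem_cyl (Y : ℕ → ℕ) (n : ℕ) : Y ∈ cyl Y n := fun _ _ => rfl

theorem exists_cyl_subset {O : Set (ℕ → ℕ)} (hO : IsOpen O) {Y : ℕ → ℕ} (hY : Y ∈ O) :
    ∃ n, cyl Y n ⊆ O := by
  obtain ⟨I, u, h1, h2⟩ := isOpen_pi_iff.1 hO Y hY
  refine ⟨I.sup id + 1, fun Y' hY' => h2 fun k hk => ?_⟩
  have h3 : k ≤ I.sup id := Finset.le_sup (f := id) hk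
  rw [hY' k (by omega)]
  exact (h1 k hk).2

omit [Countable E] in
theorem isOpen_commit {e : E} {j v : ℕ} {τ : List Bool}
    (hcont : ∀ e j Y τ, ∃ n, ∀ Y' : ℕ → ℕ, (∀ k < n, Y' k = Y k) → G e j Y' τ = G e j Y τ) :
    IsOpen {Y : ℕ → ℕ | G e j (er j Y) τ = some v} := by
  rw [isOpen_iff_forall_mem_open]
  intro Y hY
  obtain ⟨n, hn⟩ := hcont e j (er j Y) τ
  refine ⟨cyl Y n, fun Y' hY' => ?_, isOpen_cyl Y n, mem_cyl Y n⟩
  change G e j (er j Y') τ = some v
  rw [hn (er j Y') fun k hk => ?_]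
  · exact hY
  · unfold er
    by_cases hkj : k = j
    · subst hkj; simp
    · rw [Function.update_of_ne hkj, Function.update_of_ne hkj, hY' k hk]

/-- changing the coordinate `j` by the transposition of `a` and `b` -/
def swp (j a b : ℕ) : (ℕ → ℕ) ≃ₜ (ℕ → ℕ) :=
  Homeomorph.piCongrRight fun k => if k = j then
    (Equiv.swap a b).toHomeomorph (fun _ => ⟨fun _ => isOpen_discrete _, fun _ => isOpen_discrete _⟩)
    else Homeomorph.refl ℕ

theorem swp_apply_self (j a b : ℕ) (Y : ℕ → ℕ) : swp j a b Y j = Equiv.swap a b (Y j) := by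
  simp [swp]

theorem swp_apply_ne (j a b : ℕ) (Y : ℕ → ℕ) {k : ℕ} (h : k ≠ j) : swp j a b Y k = Y k := by
  simp [swp, h]

theorem er_swp (j a b : ℕ) (Y : ℕ → ℕ) : er j (swp j a b Y) = er j Y := by
  funext k
  unfold er
  by_cases h : k = j
  · subst h; simp
  · rw [Function.update_of_ne h, Function.update_of_ne h, swp_apply_ne _ _ _ _ h]

include hmono in
theorem gen_two : ∀ᶠ Z in residual (ℕ → ℕ), ∀ (n : ℕ) (e : Fin n → E), ∃ j,
    Z ∈ W (NN G e j (Z j) fun _ => ∅) := by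
  rw [eventually_countable_forall]; intro n
  rw [eventually_countable_forall]; intro e
  have hopen : IsOpen {Z : ℕ → ℕ | ∃ j, Z ∈ W (NN G e j (Z j) fun _ => ∅)} := by
    rw [isOpen_iff_forall_mem_open]
    rintro Z ⟨j, hj⟩
    refine ⟨W (NN G e j (Z j) fun _ => ∅) ∩ cyl Z (j + 1), ?_, (isOpen_W _).inter (isOpen_cyl _ _),
      hj, mem_cyl _ _⟩
    rintro Z' ⟨h1, h2⟩
    refine ⟨j, ?_⟩
    rw [h2 j (Nat.lt_succ_self j)]
    exact h1
  refine residual_of_dense_open hopen ?_
  rw [dense_iff_inter_open]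
  intro O hO ⟨Y0, hY0⟩
  obtain ⟨j, hj⟩ := exists_cyl_subset hO hY0
  have h1 : cyl Y0 j ⊆ ⋃ v : Fin (n + 1), NN G e j v fun _ => ∅ := by
    intro Y _
    obtain ⟨v, hv, h⟩ := exists_not_att (g := fun i => G (e i) j (er j Y))
      (fun i => hmono _ _ _) (fun _ => ∅)
    rw [Fintype.card_fin] at hv
    exact mem_iUnion.2 ⟨⟨v, by omega⟩, h⟩
  have h2 := W_cover h1
  obtain ⟨Y, hYO, hY⟩ := (dense_of_mem_residual h2).inter_open_nonempty _ (isOpen_cyl Y0 j)
    ⟨Y0, mem_cyl Y0 j⟩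
  obtain ⟨v, hv⟩ := hY (subset_W (isOpen_cyl Y0 j) Subset.rfl hYO)
  refine ⟨swp j (Y j) v Y, ?_, j, ?_⟩
  · refine hj fun k hk => ?_
    rw [swp_apply_ne _ _ _ _ (by omega)]
    exact hYO k hk
  · rw [swp_apply_self, Equiv.swap_apply_left]
    have h3 := W_homeo (S := NN G e j v fun _ => ∅) (swp j (Y j) v) (by
      ext Y'
      simp only [NN, mem_preimage, mem_ofPred_eq, er_swp])
    rw [← h3] at hv
    exact hv

end

/-- The main combinatorial theorem. -/
theorem main {E : Type} [Countable E] (G : E → ℕ → (ℕ → ℕ) → List Bool → Option ℕ)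
    (hmono : ∀ e j Y, Mon (G e j Y))
    (hcont : ∀ e j Y τ, ∃ n, ∀ Y' : ℕ → ℕ, (∀ k < n, Y' k = Y k) → G e j Y' τ = G e j Y τ) :
    ∀ᶠ Z in residual (ℕ → ℕ), ∀ (n : ℕ) (e : Fin n → E), ∃ j, ∀ A : Fin n → Set ℕ,
      (∃ m0, ∀ m ≥ m0, ∃ i, m ∈ A i) → ∃ i, ∃ N : Set ℕ, N ⊆ A i ∧ N.Infinite ∧
        ∀ s, G (e i) j (er j Z) (pre N s) ≠ some (Z j) := by
  filter_upwards [gen_one G, gen_two G hmono] with Z h1 h2 n e
  obtain ⟨j, hj⟩ := h2 n e
  refine ⟨j, fun A hA => ?_⟩
  obtain ⟨m0, hm0⟩ := hA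
  set v := Z j with hv
  let Inv : (Fin n → Finset ℕ) × ℕ → Prop := fun p =>
    (∀ i, ∀ x ∈ p.1 i, x < p.2 ∧ x ∈ A i) ∧ Z ∈ W (NN G e j v p.1)
  have hstep : ∀ p : {p // Inv p}, ∃ q : {p // Inv p}, ∃ m i, p.1.2 ≤ m ∧
      q.1.1 = Function.update p.1.1 i (insert m (p.1.1 i)) ∧ q.1.2 = m + 1 := by
    rintro ⟨⟨F, b⟩, hF, hW⟩
    obtain ⟨m, hm, hm2⟩ := h1 n e j v F (max b m0) hW
    obtain ⟨i, hi⟩ := hm0 m (le_trans (le_max_right _ _) hm)
    have hbm : b ≤ m := le_trans (le_max_left _ _) hm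
    refine ⟨⟨⟨Function.update F i (insert m (F i)), m + 1⟩, ⟨?_, ?_⟩⟩, m, i, hbm, rfl, rfl⟩
    · intro i' x hx
      change x ∈ Function.update F i (insert m (F i)) i' at hx
      change x < m + 1 ∧ x ∈ A i'
      by_cases hii : i' = i
      · subst hii
        rw [Function.update_self, Finset.mem_insert] at hx
        rcases hx with rfl | hx
        · exact ⟨Nat.lt_succ_self _, hi⟩
        · obtain ⟨h3, h4⟩ := hF _ x hx
          change x < b at h3
          exact ⟨by omega, h4⟩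
      · rw [Function.update_of_ne hii] at hx
        obtain ⟨h3, h4⟩ := hF _ x hx
        change x < b at h3
        exact ⟨by omega, h4⟩
    · exact W_mono (iInter_subset (fun i => NN G e j v (Function.update F i (insert m (F i)))) i)
        hm2
  choose nxt mm ii hnx using hstep
  let q0 : {p // Inv p} := ⟨(fun _ => ∅, 0), by intro i x hx; simp at hx, hj⟩
  let Q : ℕ → {p // Inv p} := fun t => Nat.rec q0 (fun _ q => nxt q) t
  have hQ : ∀ t, Q (t + 1) = nxt (Q t) := fun t => rfl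
  have hb : ∀ t, (Q t).1.2 < (Q (t + 1)).1.2 := by
    intro t
    obtain ⟨h3, h4, h5⟩ := hnx (Q t)
    rw [hQ, h5]
    omega
  have hbm : StrictMono fun t => (Q t).1.2 := strictMono_nat_of_lt_succ hb
  have hFmono : ∀ t i, (Q t).1.1 i ⊆ (Q (t + 1)).1.1 i := by
    intro t i x hx
    obtain ⟨h3, h4, h5⟩ := hnx (Q t)
    rw [hQ, h4]
    by_cases hii : i = ii (Q t)
    · rw [← hii, Function.update_self]
      exact Finset.mem_insert_of_mem hx
    · rw [Function.update_of_ne hii]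
      exact hx
  have hFmono' : ∀ i, Monotone fun t => (Q t).1.1 i := fun i =>
    monotone_nat_of_le_succ fun t => hFmono t i
  have hFnew : ∀ t i x, x ∈ (Q (t + 1)).1.1 i → x < (Q t).1.2 → x ∈ (Q t).1.1 i := by
    intro t i x hx hxb
    obtain ⟨h3, h4, h5⟩ := hnx (Q t)
    rw [hQ, h4] at hx
    by_cases hii : i = ii (Q t)
    · rw [← hii, Function.update_self, Finset.mem_insert] at hx
      rcases hx with rfl | hx
      · omega
      · exact hx
    · rwa [Function.update_of_ne hii] at hx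
  have hFnew' : ∀ t i x, ∀ d, x ∈ (Q (t + d)).1.1 i → x < (Q t).1.2 → x ∈ (Q t).1.1 i := by
    intro t i x d
    induction d with
    | zero => exact fun h _ => h
    | succ d ih =>
      intro h hx
      refine ih (hFnew (t + d) i x h (lt_of_lt_of_le hx (hbm.monotone (Nat.le_add_right t d)))) hx
  let N : Fin n → Set ℕ := fun i => {x | ∃ t, x ∈ (Q t).1.1 i}
  have hNA : ∀ i, N i ⊆ A i := by
    rintro i x ⟨t, ht⟩
    exact ((Q t).2.1 i x ht).2
  have hpre : ∀ i s, pre (N i) s = pre ((Q s).1.1 i) s := by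
    intro i s
    refine pre_congr fun p hp => ⟨?_, fun h => ⟨s, h⟩⟩
    rintro ⟨t, ht⟩
    have h3 : s ≤ (Q s).1.2 := hbm.id_le s
    rcases le_total t s with h4 | h4
    · exact hFmono' i h4 ht
    · obtain ⟨d, rfl⟩ := Nat.exists_eq_add_of_le h4
      exact hFnew' s i p d ht (by omega)
  have hno : ∀ i s, G (e i) j (er j Z) (pre (N i) s) ≠ some v := by
    intro i s hs
    rw [hpre] at hs
    have h3 := W_disjoint (S := NN G e j v (Q s).1.1) (isOpen_commit G (e := e i) (j := j) (v := v)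
      (τ := pre ((Q s).1.1 i) s) hcont) (by
        rw [Set.eq_empty_iff_forall_notMem]
        rintro Y ⟨hY1, hY2⟩
        exact hY1 (Att.base _ i s hY2))
    have h4 : Z ∈ W (NN G e j v (Q s).1.1) ∩
      {Y : ℕ → ℕ | G (e i) j (er j Y) (pre ((Q s).1.1 i) s) = some v} := ⟨(Q s).2.2, hs⟩
    rw [h3] at h4
    exact h4
  have hinf : ∃ i, (N i).Infinite := by
    by_contra hcon
    push Not at hcon
    have h3 : (⋃ i, N i).Finite := Set.finite_iUnion fun i => hcon i
    have h4 : ∀ t, mm (Q t) ∈ ⋃ i, N i := by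
      intro t
      obtain ⟨h5, h6, h7⟩ := hnx (Q t)
      refine mem_iUnion.2 ⟨ii (Q t), t + 1, ?_⟩
      rw [hQ, h6, Function.update_self]
      exact Finset.mem_insert_self _ _
    have h5 : ∀ t, t ≤ mm (Q t) := fun t => (hbm.id_le t).trans (hnx (Q t)).1
    obtain ⟨B, hB⟩ := h3.bddAbove
    have h6 := hB (h4 (B + 1))
    have h7 := h5 (B + 1)
    omega
  obtain ⟨i, hi⟩ := hinf
  exact ⟨i, N i, hNA i, hi, hno i⟩

/-! ### A version for predicates -/

section pred

variable {E : Type} (P : E → ℕ → (ℕ → ℕ) → ℕ → Set ℕ → Prop) (val : ℕ → ℕ)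

open Classical in
/-- the value of the first witness -/
noncomputable def fstP (Q : ℕ → Prop) : Option ℕ :=
  if ∃ q, Q q then some (val (sInf {q | Q q})) else none

/-- the first value found -/
noncomputable def fst (e : E) (j : ℕ) (Y : ℕ → ℕ) (τ : List Bool) : Option ℕ :=
  fstP val fun q => q ≤ τ.length ∧ P e j Y q {p | τ[p]? = some true}

theorem mem_pre_iff {N : Set ℕ} {s p : ℕ} (h : p < s) : (pre N s)[p]? = some true ↔ p ∈ N := by
  simp [pre, h]

variable {P val}

theorem fst_pre (hloc : ∀ e j Y q N N', (∀ p < q, p ∈ N ↔ p ∈ N') → P e j Y q N → P e j Y q N')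
    {e : E} {j : ℕ} {Y : ℕ → ℕ} {N : Set ℕ} {q : ℕ} (hq : P e j Y q N) :
    ∃ q', P e j Y q' N ∧ fst P val e j Y (pre N q) = some (val q') := by
  have h : ∃ q', q' ≤ (pre N q).length ∧ P e j Y q' {p | (pre N q)[p]? = some true} := by
    refine ⟨q, by simp, hloc _ _ _ _ _ _ (fun p hp => ?_) hq⟩
    exact (mem_pre_iff hp).symm
  have h1 : sInf {q' | q' ≤ (pre N q).length ∧ P e j Y q' {p | (pre N q)[p]? = some true}} ∈ _ :=
    Nat.sInf_mem h
  refine ⟨_, ?_, if_pos h⟩
  refine hloc _ _ _ _ _ _ (fun p hp => ?_) h1.2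
  have h2 := h1.1.trans (length_pre N q).le
  exact mem_pre_iff (lt_of_lt_of_le hp h2)

theorem fst_mono (hloc : ∀ e j Y q N N', (∀ p < q, p ∈ N ↔ p ∈ N') → P e j Y q N → P e j Y q N')
    (e : E) (j : ℕ) (Y : ℕ → ℕ) : Mon (fst P val e j Y) := by
  intro σ τ v hστ hv
  have key : ∀ q ≤ σ.length, P e j Y q {p | σ[p]? = some true} ↔
      P e j Y q {p | τ[p]? = some true} := by
    obtain ⟨ρ, rfl⟩ := hστ
    intro q hq
    have h1 : ∀ p < q, p ∈ {p | σ[p]? = some true} ↔ p ∈ {p | (σ ++ ρ)[p]? = some true} := by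
      intro p hp
      simp only [mem_ofPred_eq]
      rw [List.getElem?_append_left (by omega)]
    exact ⟨hloc _ _ _ _ _ _ h1, hloc _ _ _ _ _ _ fun p hp => (h1 p hp).symm⟩
  unfold fst fstP at hv ⊢
  by_cases h : ∃ q, q ≤ σ.length ∧ P e j Y q {p | σ[p]? = some true}
  · rw [if_pos h] at hv
    have h2 : ∃ q, q ≤ τ.length ∧ P e j Y q {p | τ[p]? = some true} := by
      obtain ⟨q, hq, h3⟩ := h
      exact ⟨q, hq.trans hστ.length_le, (key q hq).1 h3⟩
    rw [if_pos h2]
    have s1 : sInf {q | q ≤ σ.length ∧ P e j Y q {p | σ[p]? = some true}} ∈ _ := Nat.sInf_mem h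
    have s2 : sInf {q | q ≤ τ.length ∧ P e j Y q {p | τ[p]? = some true}} ∈ _ := Nat.sInf_mem h2
    have h3 : sInf {q | q ≤ τ.length ∧ P e j Y q {p | τ[p]? = some true}} =
        sInf {q | q ≤ σ.length ∧ P e j Y q {p | σ[p]? = some true}} := by
      have h4 : sInf {q | q ≤ τ.length ∧ P e j Y q {p | τ[p]? = some true}} ≤
          sInf {q | q ≤ σ.length ∧ P e j Y q {p | σ[p]? = some true}} :=
        Nat.sInf_le ⟨s1.1.trans hστ.length_le, (key _ s1.1).1 s1.2⟩
      exact le_antisymm h4 (Nat.sInf_le ⟨h4.trans s1.1, (key _ (h4.trans s1.1)).2 s2.2⟩)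
    rw [h3]
    exact hv
  · rw [if_neg h] at hv
    cases hv

/-- The combinatorial theorem for families of predicates. -/
theorem main' [Countable E]
    (hloc : ∀ e j Y q N N', (∀ p < q, p ∈ N ↔ p ∈ N') → P e j Y q N → P e j Y q N')
    (hcon : ∀ e j q Y Y' N, (∀ k < q + j + 1, Y k = Y' k) → P e j Y q N → P e j Y' q N) :
    ∀ᶠ Z in residual (ℕ → ℕ), ∀ (n : ℕ) (e : Fin n → E), ∃ j, ∀ A : Fin n → Set ℕ,
      (∃ m0, ∀ m ≥ m0, ∃ i, m ∈ A i) → ∃ i, ∃ N : Set ℕ, N ⊆ A i ∧ N.Infinite ∧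
        ¬ ((∃ q, P (e i) j (er j Z) q N) ∧ ∀ q, P (e i) j (er j Z) q N → val q = Z j) := by
  have h := main (fst P val) (fst_mono hloc) (by
    intro e j Y τ
    refine ⟨τ.length + j + 1, fun Y' hY' => ?_⟩
    have key : ∀ q, (q ≤ τ.length ∧ P e j Y' q {p | τ[p]? = some true}) ↔
        (q ≤ τ.length ∧ P e j Y q {p | τ[p]? = some true}) := by
      intro q
      refine and_congr_right fun hq => ⟨hcon _ _ _ _ _ _ fun k hk => hY' k (by omega),
        hcon _ _ _ _ _ _ fun k hk => (hY' k (by omega)).symm⟩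
    exact congrArg (fstP val) (funext fun q => propext (key q)))
  filter_upwards [h] with Z hZ n e
  obtain ⟨j, hj⟩ := hZ n e
  refine ⟨j, fun A hA => ?_⟩
  obtain ⟨i, N, h1, h2, h3⟩ := hj A hA
  refine ⟨i, N, h1, h2, ?_⟩
  rintro ⟨⟨q, hq⟩, h4⟩
  obtain ⟨q', h5, h6⟩ := fst_pre (val := val) hloc hq
  rw [h4 q' h5] at h6
  exact h3 q h6

end pred

end Q206.Gen
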