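import Pool.Agent.Helper227.RD.SI

set_option autoImplicit false

/-!
Predicates which are positively Sigma-one relative to a set of natural numbers (enumeration
reducibility), with closure properties; canonical indices of finite sets.
-/

namespace Q206.En

open Encodable Pool.Agent.Helper227

/-- `p` is positively Sigma-one relative to `C`. -/
def SE (C : Set ℕ) {α : Type*} [Primcodable α] (p : α → Prop) : Prop :=
  ∃ E : List ℕ × α → Prop, S1 E ∧ (∀ L L' a, L ⊆ L' → E (L, a) → E (L', a)) ∧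
    ∀ a, p a ↔ ∃ L : List ℕ, (∀ x ∈ L, x ∈ C) ∧ E (L, a)

namespace SE

variable {α β γ : Type*} [Primcodable α] [Primcodable β] [Primcodable γ] {C : Set ℕ}

theorem of_eq {p q : α → Prop} (hp : SE C p) (h : ∀ a, p a ↔ q a) : SE C q :=
  (funext fun a => propext (h a) : p = q) ▸ hp

theorem of_s1 {p : α → Prop} (hp : S1 p) : SE C p :=
  ⟨fun x => p x.2, hp.comp Primrec.snd, fun _ _ _ _ h => h, fun _ =>
    ⟨fun h => ⟨[], by simp, h⟩, fun ⟨_, _, h⟩ => h⟩⟩

theorem of_prim {p : α → Prop} (hp : PrimrecPred p) : SE C p := of_s1 (S1.of_prim hp)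

theorem comp {p : β → Prop} {f : α → β} (hp : SE C p) (hf : Primrec f) : SE C fun a => p (f a) := by
  obtain ⟨E, hE, mE, eE⟩ := hp
  exact ⟨fun x => E (x.1, f x.2), hE.comp (Primrec.fst.pair (hf.comp Primrec.snd)),
    fun L L' a h => mE _ _ _ h, fun a => eE _⟩

theorem and {p q : α → Prop} (hp : SE C p) (hq : SE C q) : SE C fun a => p a ∧ q a := by
  obtain ⟨E, hE, mE, eE⟩ := hp
  obtain ⟨F, hF, mF, eF⟩ := hq
  refine ⟨fun x => E x ∧ F x, hE.and hF, fun L L' a h h2 => ⟨mE _ _ _ h h2.1, mF _ _ _ h h2.2⟩,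
    fun a => ?_⟩
  refine (and_congr (eE a) (eF a)).trans ?_
  constructor
  · rintro ⟨⟨L, hL, h1⟩, ⟨L', hL', h2⟩⟩
    refine ⟨L ++ L', fun x hx => ?_, mE _ _ _ (List.subset_append_left _ _) h1,
      mF _ _ _ (List.subset_append_right _ _) h2⟩
    rcases List.mem_append.1 hx with h | h
    · exact hL x h
    · exact hL' x h
  · rintro ⟨L, hL, h1, h2⟩
    exact ⟨⟨L, hL, h1⟩, ⟨L, hL, h2⟩⟩

theorem or {p q : α → Prop} (hp : SE C p) (hq : SE C q) : SE C fun a => p a ∨ q a := by
  obtain ⟨E, hE, mE, eE⟩ := hp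
  obtain ⟨F, hF, mF, eF⟩ := hq
  refine ⟨fun x => E x ∨ F x, hE.or hF, fun L L' a h h2 => h2.imp (mE _ _ _ h) (mF _ _ _ h),
    fun a => ?_⟩
  refine (or_congr (eE a) (eF a)).trans ?_
  constructor
  · rintro (⟨L, hL, h⟩ | ⟨L, hL, h⟩)
    · exact ⟨L, hL, Or.inl h⟩
    · exact ⟨L, hL, Or.inr h⟩
  · rintro ⟨L, hL, h | h⟩
    · exact Or.inl ⟨L, hL, h⟩
    · exact Or.inr ⟨L, hL, h⟩

theorem ex {p : α → β → Prop} (hp : SE C fun x : α × β => p x.1 x.2) : SE C fun a => ∃ b, p a b := by
  obtain ⟨E, hE, mE, eE⟩ := hp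
  refine ⟨fun x => ∃ b, E (x.1, (x.2, b)), S1.ex (hE.comp ?_), ?_, fun a => ?_⟩
  · exact (Primrec.fst.comp Primrec.fst).pair ((Primrec.snd.comp Primrec.fst).pair Primrec.snd)
  · rintro L L' a h ⟨b, hb⟩
    exact ⟨b, mE _ _ _ h hb⟩
  · constructor
    · rintro ⟨b, hb⟩
      obtain ⟨L, hL, h⟩ := (eE (a, b)).1 hb
      exact ⟨L, hL, b, h⟩
    · rintro ⟨L, hL, b, h⟩
      exact ⟨b, (eE (a, b)).2 ⟨L, hL, h⟩⟩

theorem all_mem {p : α → β → Prop} {f : α → List β} (hp : SE C fun x : α × β => p x.1 x.2)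
    (hf : Primrec f) : SE C fun a => ∀ b ∈ f a, p a b := by
  obtain ⟨E, hE, mE, eE⟩ := hp
  refine ⟨fun x => ∀ b ∈ f x.2, E (x.1, (x.2, b)), S1.all_mem (hE.comp ?_) (hf.comp Primrec.snd),
    ?_, fun a => ?_⟩
  · exact (Primrec.fst.comp Primrec.fst).pair ((Primrec.snd.comp Primrec.fst).pair Primrec.snd)
  · rintro L L' a h h2 b hb
    exact mE _ _ _ h (h2 b hb)
  · have : ∀ M : List β, (∀ b ∈ M, p a b) ↔
        ∃ L : List ℕ, (∀ x ∈ L, x ∈ C) ∧ ∀ b ∈ M, E (L, (a, b)) := by
      intro M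
      induction M with
      | nil => exact ⟨fun _ => ⟨[], by simp, by simp⟩, fun _ => by simp⟩
      | cons c M ih =>
        simp only [List.mem_cons, forall_eq_or_imp, ih]
        have := eE (a, c)
        simp only at this
        rw [this]
        constructor
        · rintro ⟨⟨L, hL, h1⟩, ⟨L', hL', h2⟩⟩
          refine ⟨L ++ L', fun x hx => ?_, mE _ _ _ (List.subset_append_left _ _) h1,
            fun b hb => mE _ _ _ (List.subset_append_right _ _) (h2 b hb)⟩
          rcases List.mem_append.1 hx with h | h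
          · exact hL x h
          · exact hL' x h
        · rintro ⟨L, hL, h1, h2⟩
          exact ⟨⟨L, hL, h1⟩, ⟨L, hL, h2⟩⟩
    exact this _

theorem all_lt {p : α → ℕ → Prop} {f : α → ℕ} (hp : SE C fun x : α × ℕ => p x.1 x.2)
    (hf : Primrec f) : SE C fun a => ∀ b < f a, p a b :=
  (all_mem hp (Primrec.list_range.comp hf)).of_eq (by simp)

theorem query : SE C fun x : ℕ => x ∈ C := by
  refine ⟨fun x => x.2 ∈ x.1, S1.of_prim ?_, fun L L' a h h2 => h h2, fun a => ?_⟩
  · have := PP.ex_mem (α := List ℕ × ℕ) (f := fun x => x.1) (p := fun x b => b = x.2)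
      (Primrec.eq.comp Primrec.snd (Primrec.snd.comp Primrec.fst)) Primrec.fst
    exact this.of_eq fun x => by simp
  · constructor
    · intro h
      exact ⟨[a], by simpa using h, by simp⟩
    · rintro ⟨L, hL, h⟩
      exact hL _ h

open Classical in
/-- positive Sigma-one predicates are Sigma-one. -/
theorem toSI {p : α → Prop} (hp : SE C p) : SI (fun n => decide (n ∈ C)) p := by
  obtain ⟨E, hE, mE, eE⟩ := hp
  have h1 : SI (fun n => decide (n ∈ C)) fun a => ∃ L : List ℕ,
      (∀ x ∈ L, decide (x ∈ C) = true) ∧ E (L, a) := by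
    refine SI.ex (p := fun a (L : List ℕ) => (∀ x ∈ L, decide (x ∈ C) = true) ∧ E (L, a))
      (SI.and ?_ ?_)
    · refine SI.all_mem (α := α × List ℕ) (p := fun _ x => decide (x ∈ C) = true)
        (f := fun x => x.2) ?_ Primrec.snd
      exact SI.query.comp (f := fun z : (α × List ℕ) × ℕ => (z.2, true))
        (Primrec.snd.pair (Primrec.const true))
    · exact SI.of_s1 (hE.comp (Primrec.snd.pair Primrec.fst))
  refine h1.of_eq fun a => ?_
  rw [eE]
  simp

end SE

/-- exponentiation is primitive recursive -/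
theorem prim_two_pow : Primrec fun n : ℕ => 2 ^ n := by
  have h : Primrec fun n : ℕ => (Nat.rec 1 (fun _ y => 2 * y) n : ℕ) :=
    Primrec.nat_rec₁ 1 (Primrec.nat_mul.comp (Primrec.const 2) Primrec.snd)
  refine h.of_eq fun n => ?_
  induction n with
  | zero => rfl
  | succ n ih =>
    change 2 * (Nat.rec 1 (fun _ y => 2 * y) n : ℕ) = _
    rw [ih, pow_succ, mul_comm]

theorem prim_testBit : PrimrecRel fun u n : ℕ => u.testBit n = true := by
  have h : PrimrecRel fun u n : ℕ => u / 2 ^ n % 2 = 1 :=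
    Primrec.eq.comp (Primrec.nat_mod.comp (Primrec.nat_div.comp Primrec.fst
      (prim_two_pow.comp Primrec.snd)) (Primrec.const 2)) (Primrec.const 1)
  refine h.of_eq fun u n => ?_
  rw [Nat.testBit_eq_decide_div_mod_eq]
  simp

/-- The finite set with canonical index `u`. -/
def D (u : ℕ) : Set ℕ := {n | u.testBit n = true}

theorem lt_of_mem_D {u n : ℕ} (h : n ∈ D u) : n < u := by
  have h1 : 2 ^ n ≤ u := by
    by_contra hcon
    have := Nat.testBit_lt_two_pow (not_le.1 hcon)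
    rw [D, Set.mem_ofPred_eq, this] at h
    exact absurd h (by simp)
  exact lt_of_lt_of_le (Nat.lt_two_pow_self) h1

theorem exists_D (F : Finset ℕ) : ∃ u, D u = (F : Set ℕ) := by
  refine ⟨∑ i ∈ F, 2 ^ i, ?_⟩
  ext n
  rw [D, Set.mem_ofPred_eq, Finset.mem_coe]
  induction F using Finset.induction_on_max with
  | empty => simp
  | insert a F ha ih =>
    have hna : a ∉ F := fun h => lt_irrefl _ (ha a h)
    rw [Finset.sum_insert hna]
    have hlt : ∑ i ∈ F, 2 ^ i < 2 ^ a := by
      have := Nat.geomSum_lt (m := 2) (n := a) (s := F) le_rfl ha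
      exact this
    rcases lt_trichotomy n a with h | h | h
    · rw [Nat.testBit_two_pow_add_gt h, ih, Finset.mem_insert]
      simp [h.ne]
    · subst h
      rw [Nat.testBit_two_pow_add_eq]
      simp [Nat.testBit_lt_two_pow hlt]
    · have h1 : 2 ^ a + ∑ i ∈ F, 2 ^ i < 2 ^ n := by
        calc 2 ^ a + ∑ i ∈ F, 2 ^ i < 2 ^ a + 2 ^ a := by omega
          _ = 2 ^ (a + 1) := by rw [pow_succ]; ring
          _ ≤ 2 ^ n := Nat.pow_le_pow_right (by norm_num) h
      rw [Nat.testBit_lt_two_pow h1, Finset.mem_insert]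
      simp only [Bool.false_eq_true, false_iff, not_or]
      exact ⟨by omega, fun h2 => by have := ha n h2; omega⟩

/-- the elements of `D u` as a list -/
def lst (u : ℕ) : List ℕ := (List.range u).filter fun n => u.testBit n

theorem mem_lst {u n : ℕ} : n ∈ lst u ↔ n ∈ D u := by
  rw [lst, List.mem_filter, List.mem_range]
  exact ⟨fun h => h.2, fun h => ⟨lt_of_mem_D h, h⟩⟩

theorem prim_lst : Primrec lst := by
  have h1 : PrimrecRel fun (n u : ℕ) => u.testBit n = true :=
    prim_testBit.comp Primrec.snd Primrec.fst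
  exact (h1.listFilter.comp Primrec.list_range Primrec.id).of_eq fun u => by simp [lst]

end Q206.En
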