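import Pool.Agent.Q206.Intro.Defs
import Pool.Agent.Q206.Intro.SE
import Pool.Agent.Q206.Intro.Gen

set_option autoImplicit false

namespace Q206.Intro

open Set Filter Topology Encodable Q206.Gen
open Q206.En (SE lst mem_lst prim_lst lt_of_mem_D exists_D)
open Pool.Agent.Helper227 (SI S1 TLe tLe_iff_SI)

/-! ### The set -/

/-- the code of the element of column `j` given by the initial segment of length `m` of `Y` -/
def el (j m : ℕ) (Y : ℕ → ℕ) : ℕ := encode (j, (List.range m).map Y)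

/-- The set `A_Z`. -/
def AA (Z : ℕ → ℕ) : Set ℕ := {x | ∃ j m, j < m ∧ x = el j m (er j Z)}

theorem el_inj {j m j' m' : ℕ} {Y Y' : ℕ → ℕ} (h : el j m Y = el j' m' Y') :
    j = j' ∧ m = m' ∧ ∀ k < m, Y k = Y' k := by
  have h1 := encode_injective h
  rw [Prod.mk.injEq] at h1
  obtain ⟨h1, h2⟩ := h1
  have h3 : m = m' := by simpa using congrArg List.length h2
  subst h3
  refine ⟨h1, rfl, fun k hk => ?_⟩
  have h4 := List.map_inj_left.1 h2 k (List.mem_range.2 hk)
  exact h4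

theorem le_el (j m : ℕ) (Y : ℕ → ℕ) : m ≤ el j m Y := by
  unfold el
  have h1 := length_le_encode ((List.range m).map Y)
  rw [List.length_map, List.length_range] at h1
  exact h1.trans (Nat.right_le_pair _ _)

theorem el_congr {j m : ℕ} {Y Y' : ℕ → ℕ} (h : ∀ k < m, Y k = Y' k) : el j m Y = el j m Y' := by
  unfold el
  rw [List.map_congr_left fun k hk => h k (List.mem_range.1 hk)]

/-- the part of column `j` given by `N` -/
def col (j : ℕ) (Y : ℕ → ℕ) (N : Set ℕ) : Set ℕ := {x | ∃ m ∈ N, j < m ∧ x = el j m Y}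

theorem col_infinite {j : ℕ} {Y : ℕ → ℕ} {N : Set ℕ} (hN : N.Infinite) : (col j Y N).Infinite := by
  have h1 : (N \ {m | m ≤ j}).Infinite := hN.sdiff (Set.finite_le_nat j)
  refine (h1.image (f := fun m => el j m Y) ?_).mono ?_
  · intro m _ m' _ h
    exact (el_inj h).2.1
  · rintro x ⟨m, ⟨hm, hm2⟩, rfl⟩
    exact ⟨m, hm, not_le.1 hm2, rfl⟩

/-- the question which tells the value of `Z j` -/
def qu (j : ℕ) (Y : ℕ → ℕ) (v : ℕ) : ℕ := el (j + 1) (j + 2) (er (j + 1) (Function.update Y j v))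

theorem qu_congr {j v : ℕ} {Y Y' : ℕ → ℕ} (h : ∀ k < j, Y k = Y' k) : qu j Y v = qu j Y' v := by
  refine el_congr fun k hk => ?_
  unfold er
  by_cases h1 : k = j + 1
  · subst h1; simp
  · rw [Function.update_of_ne h1, Function.update_of_ne h1]
    by_cases h2 : k = j
    · subst h2; simp
    · rw [Function.update_of_ne h2, Function.update_of_ne h2, h k (by omega)]

theorem qu_mem {Z : ℕ → ℕ} {j v : ℕ} : qu j (er j Z) v ∈ AA Z ↔ v = Z j := by
  constructor
  · rintro ⟨j', m', hj, h⟩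
    obtain ⟨h1, h2, h3⟩ := el_inj h
    have h4 := h3 j (by omega)
    unfold er at h4
    rw [Function.update_of_ne (by omega), Function.update_self, Function.update_of_ne (by omega)]
      at h4
    exact h4
  · rintro rfl
    refine ⟨j + 1, j + 2, by omega, ?_⟩
    unfold qu
    congr 2
    unfold er
    rw [Function.update_idem, Function.update_eq_self]

/-! ### `A_Z` is introreducible and introenumerable -/

theorem AA_infinite (Z : ℕ → ℕ) : (AA Z).Infinite := by
  refine (col_infinite (j := 0) (Y := er 0 Z) (N := Set.univ) Set.infinite_univ).mono ?_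
  rintro x ⟨m, -, hm, rfl⟩
  exact ⟨0, m, hm, rfl⟩

theorem dec_el (j m : ℕ) (Y : ℕ → ℕ) :
    (Denumerable.ofNat (ℕ × List ℕ) (el j m Y)) = (j, (List.range m).map Y) :=
  Denumerable.ofNat_encode _

/-- abbreviation: the first component of the decoded number -/
def pj (x : ℕ) : ℕ := (Denumerable.ofNat (ℕ × List ℕ) x).1
def pl (x : ℕ) : List ℕ := (Denumerable.ofNat (ℕ × List ℕ) x).2

theorem prim_pj : Primrec pj := Primrec.fst.comp (Primrec.ofNat _)
theorem prim_pl : Primrec pl := Primrec.snd.comp (Primrec.ofNat _)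

theorem mem_AA {Z : ℕ → ℕ} {x : ℕ} : x ∈ AA Z ↔ pj x < (pl x).length ∧
    ∀ k < (pl x).length, (k = pj x ∧ (pl x).getD k 0 = 0) ∨ (k ≠ pj x ∧ Z k = (pl x).getD k 0) := by
  constructor
  · rintro ⟨j, m, hj, rfl⟩
    simp only [pj, pl, dec_el]
    rw [List.length_map, List.length_range]
    refine ⟨hj, fun k hk => ?_⟩
    have h1 : ((List.range m).map (er j Z)).getD k 0 = er j Z k := by
      simp [List.getD, hk]
    rw [h1]
    unfold er
    by_cases h : k = j
    · subst h; simp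
    · rw [Function.update_of_ne h]
      exact Or.inr ⟨h, rfl⟩
  · rintro ⟨h1, h2⟩
    refine ⟨pj x, (pl x).length, h1, ?_⟩
    unfold el
    have h3 : (List.range (pl x).length).map (er (pj x) Z) = pl x := by
      refine List.ext_getElem (by simp) fun k hk hk' => ?_
      rw [List.getElem_map, List.getElem_range]
      have h4 := h2 k hk'
      have h5 : (pl x).getD k 0 = (pl x)[k] := by simp [List.getD, hk']
      rw [h5] at h4
      unfold er
      rcases h4 with ⟨h4, h6⟩ | ⟨h4, h6⟩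
      · rw [Function.update_apply, if_pos h4]
        exact h6.symm
      · rw [Function.update_of_ne h4, h6]
    rw [h3]
    exact (Denumerable.encode_ofNat x).symm

theorem not_mem_AA {Z : ℕ → ℕ} {x : ℕ} : x ∉ AA Z ↔ (pl x).length ≤ pj x ∨
    ∃ k, k < (pl x).length ∧ ((k = pj x ∧ (pl x).getD k 0 ≠ 0) ∨
      (k ≠ pj x ∧ ∃ v, Z k = v ∧ v ≠ (pl x).getD k 0)) := by
  rw [mem_AA]
  constructor
  · intro h
    by_cases h1 : pj x < (pl x).length
    · right
      by_contra hcon
      push Not at hcon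
      refine h ⟨h1, fun k hk => ?_⟩
      obtain ⟨h2, h3⟩ := hcon k hk
      by_cases h4 : k = pj x
      · exact Or.inl ⟨h4, h2 h4⟩
      · exact Or.inr ⟨h4, h3 h4 _ rfl⟩
    · exact Or.inl (not_lt.1 h1)
  · rintro (h | ⟨k, hk, h⟩) ⟨h1, h2⟩
    · omega
    · rcases h2 k hk with ⟨h3, h4⟩ | ⟨h3, h4⟩
      · rcases h with ⟨h5, h6⟩ | ⟨h5, -⟩
        · exact h6 h4
        · exact h5 h3
      · rcases h with ⟨h5, -⟩ | ⟨-, v, h6, h7⟩
        · exact h3 h5
        · exact h7 (h6 ▸ h4)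

/-- The graph of `Z` is enumeration reducible to every infinite subset of `A_Z`. -/
theorem graph_SE {Z : ℕ → ℕ} {C : Set ℕ} (hC : C ⊆ AA Z) (hinf : C.Infinite) :
    SE C fun x : ℕ × ℕ => Z x.1 = x.2 := by
  by_cases hcase : ∃ j, {m | el j m (er j Z) ∈ C}.Infinite
  · obtain ⟨j, hj⟩ := hcase
    have h1 : SE C fun x : ℕ × ℕ => (x.1 = j ∧ x.2 = Z j) ∨ (∃ y : ℕ, (y ∈ C ∧
        (pj y = j ∧ x.1 < (pl y).length ∧ x.1 ≠ j ∧ (pl y).getD x.1 0 = x.2))) := by
      refine SE.or (SE.of_prim ?_) (SE.ex (SE.and ?_ (SE.of_prim ?_)))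
      · exact PrimrecPred.and (Primrec.eq.comp Primrec.fst (Primrec.const j))
          (Primrec.eq.comp Primrec.snd (Primrec.const (Z j)))
      · exact SE.query.comp Primrec.snd
      · refine PrimrecPred.and (Primrec.eq.comp (prim_pj.comp Primrec.snd) (Primrec.const j))
          (PrimrecPred.and (Primrec.nat_lt.comp (Primrec.fst.comp Primrec.fst)
            (Primrec.list_length.comp (prim_pl.comp Primrec.snd)))
          (PrimrecPred.and (PrimrecPred.not (Primrec.eq.comp (Primrec.fst.comp Primrec.fst)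
            (Primrec.const j))) ?_))
        exact Primrec.eq.comp ((Primrec.list_getD 0).comp (prim_pl.comp Primrec.snd)
          (Primrec.fst.comp Primrec.fst)) (Primrec.snd.comp Primrec.fst)
    refine h1.of_eq fun ⟨k, v⟩ => ?_
    simp only
    constructor
    · rintro (⟨rfl, rfl⟩ | ⟨y, hy, h2, h3, h4, h5⟩)
      · rfl
      · obtain ⟨h6, h7⟩ := mem_AA.1 (hC hy)
        rcases h7 k h3 with ⟨h8, -⟩ | ⟨-, h9⟩
        · exact absurd (h8.trans h2) h4
        · rw [h9, h5]
    · intro h2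
      by_cases hk : k = j
      · left
        exact ⟨hk, by rw [← h2, hk]⟩
      · right
        obtain ⟨m, hm, hkm⟩ := hj.exists_gt k
        refine ⟨_, hm, ?_⟩
        simp only [pj, pl, dec_el]
        rw [List.length_map, List.length_range]
        refine ⟨trivial, hkm, hk, ?_⟩
        have h1 : ((List.range m).map (er j Z)).getD k 0 = er j Z k := by
          simp [List.getD, hkm]
        rw [h1, er, Function.update_of_ne hk, h2]
  · push Not at hcase
    have hbig : ∀ k, ∃ y ∈ C, k < pj y := by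
      intro k
      by_contra hcon
      push Not at hcon
      refine hinf ?_
      have h1 : C ⊆ ⋃ j ∈ Set.Iic k, (fun m => el j m (er j Z)) '' {m | el j m (er j Z) ∈ C} := by
        intro y hy
        obtain ⟨j, m, hj, rfl⟩ := hC hy
        have h2 := hcon _ hy
        simp only [pj, dec_el] at h2
        exact mem_iUnion₂.2 ⟨j, h2, m, hy, rfl⟩
      refine Set.Finite.subset ?_ h1
      refine (Set.finite_Iic k).biUnion fun j _ => ?_
      exact (hcase j).image _
    have h1 : SE C fun x : ℕ × ℕ => (∃ y : ℕ, (y ∈ C ∧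
        (x.1 < pj y ∧ (pl y).getD x.1 0 = x.2))) := by
      refine (SE.ex (SE.and ?_ (SE.of_prim ?_)))
      · exact SE.query.comp Primrec.snd
      · refine PrimrecPred.and (Primrec.nat_lt.comp (Primrec.fst.comp Primrec.fst)
          (prim_pj.comp Primrec.snd)) ?_
        exact Primrec.eq.comp ((Primrec.list_getD 0).comp (prim_pl.comp Primrec.snd)
          (Primrec.fst.comp Primrec.fst)) (Primrec.snd.comp Primrec.fst)
    refine h1.of_eq fun ⟨k, v⟩ => ?_
    simp only
    have h2 : ∀ y ∈ C, k < pj y → (pl y).getD k 0 = Z k := by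
      intro y hy hk
      obtain ⟨h6, h7⟩ := mem_AA.1 (hC hy)
      rcases h7 k (hk.trans h6) with ⟨h8, -⟩ | ⟨-, h9⟩
      · omega
      · exact h9.symm
    constructor
    · rintro ⟨y, hy, h3, h4⟩
      rw [← h4, h2 y hy h3]
    · intro h3
      obtain ⟨y, hy, hk⟩ := hbig k
      exact ⟨y, hy, hk, by rw [h2 y hy hk, h3]⟩

theorem chr_eq_true {S : Set ℕ} {n : ℕ} : chr S n = true ↔ n ∈ S := by simp [chr]
theorem chr_eq_false {S : Set ℕ} {n : ℕ} : chr S n = false ↔ n ∉ S := by simp [chr]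

theorem AA_SE {Z : ℕ → ℕ} {C : Set ℕ} (h : SE C fun x : ℕ × ℕ => Z x.1 = x.2) :
    SE C fun x : ℕ => x ∈ AA Z := by
  have h1 : SE C fun x : ℕ => pj x < (pl x).length ∧
      ∀ k < (pl x).length, (k = pj x ∧ (pl x).getD k 0 = 0) ∨
        (k ≠ pj x ∧ Z k = (pl x).getD k 0) := by
    refine SE.and (SE.of_prim ?_) (SE.all_lt (p := fun x k => (k = pj x ∧ (pl x).getD k 0 = 0) ∨
        (k ≠ pj x ∧ Z k = (pl x).getD k 0)) (SE.or (SE.of_prim ?_) (SE.and (SE.of_prim ?_) ?_)) ?_)
    · exact Primrec.nat_lt.comp prim_pj (Primrec.list_length.comp prim_pl)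
    · exact PrimrecPred.and (Primrec.eq.comp Primrec.snd (prim_pj.comp Primrec.fst))
        (Primrec.eq.comp ((Primrec.list_getD 0).comp (prim_pl.comp Primrec.fst) Primrec.snd)
          (Primrec.const 0))
    · exact PrimrecPred.not (Primrec.eq.comp Primrec.snd (prim_pj.comp Primrec.fst))
    · exact h.comp (f := fun x : ℕ × ℕ => (x.2, (pl x.1).getD x.2 0))
        (Primrec.snd.pair ((Primrec.list_getD 0).comp (prim_pl.comp Primrec.fst) Primrec.snd))
    · exact Primrec.list_length.comp prim_pl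
  exact h1.of_eq fun x => mem_AA.symm

theorem nAA_SE {Z : ℕ → ℕ} {C : Set ℕ} (h : SE C fun x : ℕ × ℕ => Z x.1 = x.2) :
    SE C fun x : ℕ => x ∉ AA Z := by
  have h1 : SE C fun x : ℕ => (pl x).length ≤ pj x ∨
      ∃ k, (k < (pl x).length ∧ ((k = pj x ∧ (pl x).getD k 0 ≠ 0) ∨
        (k ≠ pj x ∧ ∃ v, (Z k = v ∧ v ≠ (pl x).getD k 0)))) := by
    refine SE.or (SE.of_prim ?_) (SE.ex (SE.and (SE.of_prim ?_) (SE.or (SE.of_prim ?_)
      (SE.and (SE.of_prim ?_) (SE.ex (SE.and ?_ (SE.of_prim ?_)))))))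
    · exact Primrec.nat_le.comp (Primrec.list_length.comp prim_pl) prim_pj
    · exact Primrec.nat_lt.comp Primrec.snd (Primrec.list_length.comp (prim_pl.comp Primrec.fst))
    · exact PrimrecPred.and (Primrec.eq.comp Primrec.snd (prim_pj.comp Primrec.fst))
        (PrimrecPred.not (Primrec.eq.comp ((Primrec.list_getD 0).comp (prim_pl.comp Primrec.fst)
          Primrec.snd) (Primrec.const 0)))
    · exact PrimrecPred.not (Primrec.eq.comp Primrec.snd (prim_pj.comp Primrec.fst))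
    · exact h.comp (f := fun x : (ℕ × ℕ) × ℕ => (x.1.2, x.2))
        ((Primrec.snd.comp Primrec.fst).pair Primrec.snd)
    · exact PrimrecPred.not (Primrec.eq.comp Primrec.snd ((Primrec.list_getD 0).comp
        (prim_pl.comp (Primrec.fst.comp Primrec.fst)) (Primrec.snd.comp Primrec.fst)))
  exact h1.of_eq fun x => not_mem_AA.symm

theorem tRed_iff {A B : Set ℕ} : TRed A B ↔ SI (chr B) fun x : ℕ × Bool => chr A x.1 = x.2 :=
  tLe_iff_SI (A := chr A) (B := chr B)

theorem introreducible_AA (Z : ℕ → ℕ) : Introreducible (AA Z) := by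
  refine ⟨AA_infinite Z, fun C hC hinf => ?_⟩
  rw [tRed_iff]
  have h1 := graph_SE hC hinf
  have h2 : SE C fun x : ℕ × Bool => (x.2 = true ∧ x.1 ∈ AA Z) ∨ (x.2 = false ∧ x.1 ∉ AA Z) := by
    refine SE.or (SE.and (SE.of_prim ?_) ((AA_SE h1).comp Primrec.fst))
      (SE.and (SE.of_prim ?_) ((nAA_SE h1).comp Primrec.fst))
    · exact Primrec.eq.comp Primrec.snd (Primrec.const true)
    · exact Primrec.eq.comp Primrec.snd (Primrec.const false)
  refine (SE.toSI h2).of_eq fun ⟨n, b⟩ => ?_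
  cases b
  · simp [chr_eq_false]
  · simp [chr_eq_true]

theorem D_eq (u : ℕ) : D u = Q206.En.D u := rfl

theorem eRed_of_SE {A C : Set ℕ} (h : SE C fun x : ℕ => x ∈ A) : ERed A C := by
  obtain ⟨E, hE, mE, eE⟩ := h
  refine ⟨{x | E (lst x.1, x.2)}, ?_, ?_⟩
  · exact (hE.comp (f := fun x : ℕ × ℕ => (lst x.1, x.2))
      ((prim_lst.comp Primrec.fst).pair Primrec.snd)).re
  · ext n
    change (∃ u, D u ⊆ C ∧ E (lst u, n)) ↔ n ∈ A
    refine Iff.trans ?_ (eE n).symm
    constructor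
    · rintro ⟨u, hu, h⟩
      exact ⟨lst u, fun x hx => hu (mem_lst.1 hx), h⟩
    · rintro ⟨L, hL, h⟩
      obtain ⟨u, hu⟩ := exists_D L.toFinset
      refine ⟨u, ?_, mE _ _ _ (fun x hx => ?_) h⟩
      · rw [D_eq, hu]
        intro x hx
        exact hL x (by simpa using hx)
      · rw [mem_lst, hu]
        simpa using hx

theorem introenumerable_AA (Z : ℕ → ℕ) : Introenumerable (AA Z) :=
  ⟨AA_infinite Z, fun _ hC hinf => eRed_of_SE (AA_SE (graph_SE hC hinf))⟩

/-! ### `A_Z` is not finitely decomposable for generic `Z` -/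

theorem countable_re {α : Type} [Primcodable α] : Countable {W : Set α // REPred fun x => x ∈ W} := by
  have h : ∀ W : {W : Set α // REPred fun x => x ∈ W}, ∃ c : Nat.Partrec.Code,
      ∀ a : α, a ∈ W.1 ↔ (c.eval (Encodable.encode a)).Dom := by
    rintro ⟨W, hW⟩
    obtain ⟨c, hc⟩ := Nat.Partrec.Code.exists_code.1 hW
    refine ⟨c, fun a => ?_⟩
    rw [hc]
    simp [Part.assert]
  choose c hc using h
  refine Function.Injective.countable (f := c) ?_
  intro W W' h
  apply Subtype.ext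
  ext a
  rw [hc, hc, h]

theorem ini_col_congr {j q : ℕ} {Y Y' : ℕ → ℕ} {N N' : Set ℕ} (hY : ∀ k < q, Y k = Y' k)
    (hN : ∀ p < q, p ∈ N ↔ p ∈ N') : ∀ x < q, x ∈ col j Y N → x ∈ col j Y' N' := by
  rintro x hx ⟨m, hm, hj, rfl⟩
  have h1 := le_el j m Y
  refine ⟨m, (hN m (by omega)).1 hm, hj, el_congr fun k hk => hY k (by omega)⟩

theorem ini_congr {C C' : Set ℕ} {s : ℕ} (h : ∀ x < s, x ∈ C ↔ x ∈ C') : ini C s = ini C' s := by
  unfold ini
  refine List.map_congr_left fun x hx => ?_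
  have := h x (List.mem_range.1 hx)
  simp only [chr]
  rw [decide_eq_decide]
  exact this

/-- the predicate for Turing operators -/
def PT (W : {W : Set (List Bool × ℕ × Bool) // REPred fun x => x ∈ W}) (j : ℕ) (Y : ℕ → ℕ) (q : ℕ)
    (N : Set ℕ) : Prop :=
  (ini (col j Y N) q.unpair.1, qu j Y q.unpair.2, true) ∈ W.1

/-- the predicate for enumeration operators -/
def PE (W : {W : Set (ℕ × ℕ) // REPred fun x => x ∈ W}) (j : ℕ) (Y : ℕ → ℕ) (q : ℕ)
    (N : Set ℕ) : Prop :=
  D q.unpair.1 ⊆ col j Y N ∧ (q.unpair.1, qu j Y q.unpair.2) ∈ W.1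

theorem notUIT : ∀ᶠ Z in residual (ℕ → ℕ), ∀ (n : ℕ) (B : Fin n → Set ℕ), AA Z = ⋃ i, B i →
    (∀ i, UIT (AA Z) (B i)) → False := by
  have := countable_re (α := List Bool × ℕ × Bool)
  have h := main' (P := PT) (val := fun q => q.unpair.2) (by
    intro e j Y q N N' hN h
    unfold PT at h ⊢
    have h1 := Nat.unpair_left_le q
    rwa [ini_congr fun x hx => ⟨ini_col_congr (fun _ _ => rfl) (fun p hp => hN p (by omega)) x hx,
      ini_col_congr (fun _ _ => rfl) (fun p hp => (hN p (by omega)).symm) x hx⟩] at h) (by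
    intro e j q Y Y' N hY h
    unfold PT at h ⊢
    have h1 := Nat.unpair_left_le q
    rwa [ini_congr fun x hx => ⟨ini_col_congr (fun k hk => hY k (by omega)) (fun p hp => Iff.rfl)
      x hx, ini_col_congr (fun k hk => (hY k (by omega)).symm) (fun p hp => Iff.rfl) x hx⟩,
      qu_congr fun k hk => hY k (by omega)] at h)
  filter_upwards [h] with Z hZ n B hB hUI
  choose W hW hWB using hUI
  obtain ⟨j, hj⟩ := hZ n fun i => ⟨W i, hW i⟩
  obtain ⟨i, N, hN, hNinf, hno⟩ := hj (fun i => {m | j < m → el j m (er j Z) ∈ B i}) ⟨j + 1, by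
    intro m hm
    have h1 : el j m (er j Z) ∈ AA Z := ⟨j, m, by omega, rfl⟩
    rw [hB] at h1
    obtain ⟨i, hi⟩ := mem_iUnion.1 h1
    exact ⟨i, fun _ => hi⟩⟩
  have hC : col j (er j Z) N ⊆ B i := by
    rintro x ⟨m, hm, hjm, rfl⟩
    exact hN hm hjm
  have hcomp := hWB i _ hC (col_infinite hNinf)
  refine hno ⟨?_, ?_⟩
  · obtain ⟨s, hs⟩ := (hcomp (qu j (er j Z) (Z j)) true).2 (chr_eq_true.2 (qu_mem.2 rfl))
    refine ⟨Nat.pair s (Z j), ?_⟩
    unfold PT
    rw [Nat.unpair_pair]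
    exact hs
  · intro q hq
    have h1 := (hcomp (qu j (er j Z) q.unpair.2) true).1 ⟨_, hq⟩
    exact qu_mem.1 (chr_eq_true.1 h1)

theorem notUIE : ∀ᶠ Z in residual (ℕ → ℕ), ∀ (n : ℕ) (B : Fin n → Set ℕ), AA Z = ⋃ i, B i →
    (∀ i, UIE (AA Z) (B i)) → False := by
  have := countable_re (α := ℕ × ℕ)
  have h := main' (P := PE) (val := fun q => q.unpair.2) (by
    intro e j Y q N N' hN h
    have h1 := Nat.unpair_left_le q
    refine ⟨fun x hx => ?_, h.2⟩
    have h2 := lt_of_mem_D (D_eq _ ▸ hx)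
    exact ini_col_congr (fun _ _ => rfl) (fun p hp => hN p (by omega)) x h2 (h.1 hx)) (by
    intro e j q Y Y' N hY h
    have h1 := Nat.unpair_left_le q
    refine ⟨fun x hx => ?_, ?_⟩
    · have h2 := lt_of_mem_D (D_eq _ ▸ hx)
      exact ini_col_congr (fun k hk => hY k (by omega)) (fun p hp => Iff.rfl) x h2 (h.1 hx)
    · rw [← qu_congr fun k hk => hY k (by omega)]
      exact h.2)
  filter_upwards [h] with Z hZ n B hB hUI
  choose W hW hWB using hUI
  obtain ⟨j, hj⟩ := hZ n fun i => ⟨W i, hW i⟩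
  obtain ⟨i, N, hN, hNinf, hno⟩ := hj (fun i => {m | j < m → el j m (er j Z) ∈ B i}) ⟨j + 1, by
    intro m hm
    have h1 : el j m (er j Z) ∈ AA Z := ⟨j, m, by omega, rfl⟩
    rw [hB] at h1
    obtain ⟨i, hi⟩ := mem_iUnion.1 h1
    exact ⟨i, fun _ => hi⟩⟩
  have hC : col j (er j Z) N ⊆ B i := by
    rintro x ⟨m, hm, hjm, rfl⟩
    exact hN hm hjm
  have happ := hWB i _ hC (col_infinite hNinf)
  refine hno ⟨?_, ?_⟩
  · have h1 : qu j (er j Z) (Z j) ∈ app (W i) (col j (er j Z) N) := by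
      rw [happ]
      exact qu_mem.2 rfl
    obtain ⟨u, hu, hu2⟩ := h1
    refine ⟨Nat.pair u (Z j), ?_⟩
    unfold PE
    rw [Nat.unpair_pair]
    exact ⟨hu, hu2⟩
  · intro q hq
    have h1 : qu j (er j Z) q.unpair.2 ∈ app (W i) (col j (er j Z) N) := ⟨_, hq.1, hq.2⟩
    rw [happ] at h1
    exact qu_mem.1 h1

/-- There is a set with all the properties. -/
theorem exists_set : ∃ A : Set ℕ, Introreducible A ∧ Introenumerable A ∧
    (∀ (n : ℕ) (B : Fin n → Set ℕ), A = ⋃ i, B i → ¬ ∀ i, UIT A (B i)) ∧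
    (∀ (n : ℕ) (B : Fin n → Set ℕ), A = ⋃ i, B i → ¬ ∀ i, UIE A (B i)) := by
  obtain ⟨Z, h1, h2⟩ := (dense_of_mem_residual (notUIT.and notUIE)).nonempty
  exact ⟨AA Z, introreducible_AA Z, introenumerable_AA Z, h1, h2⟩

end Q206.Intro
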