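import Pool.Agent.Q206.Intro.Main

set_option autoImplicit false

namespace Q206.Intro

open Set Encodable
open Pool.Agent.Helper227 (SI S1 TLe tLe_iff_SI pre pre_prefix take_pre length_pre pre_eq_of_prefix)

theorem ini_eq (C : Set ℕ) (s : ℕ) : ini C s = pre (chr C) s := rfl

/-- Turing reducibility is reducibility by some Turing operator. -/
theorem tRed_iff_computes {A B : Set ℕ} : TRed A B ↔
    ∃ W : Set (List Bool × ℕ × Bool), REPred (fun x => x ∈ W) ∧ Computes W B A := by
  rw [tRed_iff]
  constructor
  · rintro ⟨E, hE, -, eE⟩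
    refine ⟨{x | E x}, hE.re, fun n b => ?_⟩
    exact (eE (n, b)).symm
  · rintro ⟨W, hW, h⟩
    refine ⟨fun x => ∃ k, (k < x.1.length + 1 ∧ (x.1.take k, x.2) ∈ W), ?_, ?_, ?_⟩
    · refine S1.ex (S1.and (S1.of_prim ?_) ?_)
      · exact Primrec.nat_lt.comp Primrec.snd (Primrec.succ.comp
          (Primrec.list_length.comp (Primrec.fst.comp Primrec.fst)))
      · exact S1.comp (f := fun x : (List Bool × ℕ × Bool) × ℕ => (x.1.1.take x.2, x.1.2))
          (S1.of_re hW) ((Primrec.list_take.comp Primrec.snd (Primrec.fst.comp Primrec.fst)).pair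
          (Primrec.snd.comp Primrec.fst))
    · rintro σ τ a ⟨ρ, rfl⟩ ⟨k, hk, h1⟩
      simp only at hk h1
      refine ⟨k, ?_, ?_⟩
      · simp only [List.length_append]; omega
      · simp only
        rwa [List.take_append_of_le_length (by omega)]
    · rintro ⟨n, b⟩
      simp only
      rw [← h n b]
      constructor
      · rintro ⟨s, hs⟩
        refine ⟨s, s, by rw [length_pre]; omega, ?_⟩
        rw [take_pre _ _ _ le_rfl]
        exact hs
      · rintro ⟨s, k, hk, h1⟩
        rw [length_pre] at hk
        rw [take_pre _ _ _ (by omega)] at h1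
        exact ⟨k, h1⟩

/-- Composition of Turing operators. -/
theorem exists_comp {W W' : Set (List Bool × ℕ × Bool)} (hW : REPred fun x => x ∈ W)
    (hW' : REPred fun x => x ∈ W') : ∃ V : Set (List Bool × ℕ × Bool), (REPred fun x => x ∈ V) ∧
      ∀ A B C : Set ℕ, Computes W C B → Computes W' B A → Computes V C A := by
  refine ⟨{x | ∃ τ : List Bool, ((τ, x.2) ∈ W' ∧ ∀ p < τ.length, ∃ k, (k < x.1.length + 1 ∧
    (x.1.take k, p, τ.getD p false) ∈ W))}, ?_, ?_⟩
  · refine S1.re ?_
    refine S1.ex (S1.and ?_ (S1.all_lt (p := fun (x : (List Bool × ℕ × Bool) × List Bool) p =>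
      ∃ k, (k < x.1.1.length + 1 ∧ (x.1.1.take k, p, x.2.getD p false) ∈ W))
      (S1.ex (S1.and (S1.of_prim ?_) ?_)) ?_))
    · exact S1.comp (f := fun x : (List Bool × ℕ × Bool) × List Bool => (x.2, x.1.2))
        (S1.of_re hW') (Primrec.snd.pair (Primrec.snd.comp Primrec.fst))
    · exact Primrec.nat_lt.comp Primrec.snd (Primrec.succ.comp (Primrec.list_length.comp
        (Primrec.fst.comp (Primrec.fst.comp (Primrec.fst.comp Primrec.fst)))))
    · exact S1.comp (f := fun x : (((List Bool × ℕ × Bool) × List Bool) × ℕ) × ℕ =>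
          (x.1.1.1.1.take x.2, x.1.2, x.1.1.2.getD x.1.2 false))
        (S1.of_re hW) ((Primrec.list_take.comp Primrec.snd (Primrec.fst.comp
          (Primrec.fst.comp (Primrec.fst.comp Primrec.fst)))).pair
          ((Primrec.snd.comp Primrec.fst).pair ((Primrec.list_getD false).comp
          (Primrec.snd.comp (Primrec.fst.comp Primrec.fst)) (Primrec.snd.comp Primrec.fst))))
    · exact Primrec.list_length.comp Primrec.snd
  · intro A B C h1 h2 n b
    rw [← h2 n b]
    constructor
    · rintro ⟨s, τ, h3, h4⟩
      have h5 : τ = ini B τ.length := by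
        refine List.ext_getElem (by simp [ini]) fun p hp hp' => ?_
        obtain ⟨k, hk, h6⟩ := h4 p hp
        simp only [ini_eq, length_pre] at hk h6
        rw [take_pre _ _ _ (by omega)] at h6
        have h7 := (h1 p (τ.getD p false)).1 ⟨k, h6⟩
        simp only [List.getD, List.getElem?_eq_getElem hp, Option.getD_some] at h7
        simp only [ini, List.getElem_map, List.getElem_range]
        exact h7.symm
      refine ⟨τ.length, ?_⟩
      rw [← h5]
      exact h3
    · rintro ⟨t, ht⟩
      have h3 : ∀ p, ∃ k, (ini C k, p, chr B p) ∈ W := fun p => (h1 p _).2 rfl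
      choose k hk using h3
      refine ⟨(Finset.range t).sup k, ini B t, ht, fun p hp => ?_⟩
      have hp' : p < t := by simpa [ini] using hp
      have h4 : k p ≤ (Finset.range t).sup k := Finset.le_sup (Finset.mem_range.2 hp')
      refine ⟨k p, ?_, ?_⟩
      · simp only [ini_eq, length_pre]; omega
      · simp only
        rw [ini_eq, take_pre _ _ _ h4]
        have h5 : (ini B t).getD p false = chr B p := by
          simp [ini, List.getD, hp']
        rw [h5]
        exact hk p

/-- A finite union of uniformly introreducible sets which is introreducible is finitely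
decomposable. -/
theorem uit_of_uniform {A B : Set ℕ} (hA : Introreducible A) (hB : UniformlyIntroreducible B)
    (hBA : B ⊆ A) : UIT A B := by
  obtain ⟨hinf, W, hW, h⟩ := hB
  obtain ⟨W', hW', h'⟩ := tRed_iff_computes.1 (hA.2 B hBA hinf)
  obtain ⟨V, hV, h2⟩ := exists_comp hW hW'
  exact ⟨V, hV, fun C hC hCinf => h2 _ _ _ (h C hC hCinf) h'⟩

end Q206.Intro
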